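import Pool.Agent.K1H22.DF.Stm5
import Pool.Agent.K1H38.DF.Few3

/-! Piece ROUTE5 of the project DF. -/

set_option autoImplicit false

namespace Pool.Agent.K1H16.DF

open Pool.Agent.K1H22.DF Pool.Agent.K1H38.DF Finset

theorem t_ROUTE5 : S_ROUTE5 := by
  intro V _ _ G _ D k hV hA S u w hSh hSc hu hw hwb hS2 hnw
  have b0 : u ∈ ball G D u 0 := by simp [ball]
  have m01 := ball_mono G D u 0
  have m12 := ball_mono G D u 1
  have m23 := ball_mono G D u 2
  have m34 := ball_mono G D u 3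
  have m45 := ball_mono G D u 4
  have huw : u ≠ w := by
    rintro rfl
    exact hwb (m45 (m34 (m23 (m12 (m01 b0)))))
  have hsub : S ⊆ (univ.erase u).erase w := by
    intro x hx
    rw [mem_erase, mem_erase]
    refine ⟨?_, ?_, mem_univ _⟩
    · rintro rfl
      exact hw (hSh hx)
    · rintro rfl
      exact hu (hSh hx)
  obtain ⟨S', hS1, hS3, hS4⟩ := Finset.exists_subsuperset_card_eq hsub hSc
    (by
      rw [card_erase_of_mem (mem_erase.2 ⟨huw.symm, mem_univ w⟩), card_erase_of_mem (mem_univ u),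
        card_univ]
      omega)
  have huS : u ∉ S' := fun h => by
    have := hS3 h
    simp at this
  have hwS : w ∉ S' := fun h => by
    have := hS3 h
    simp at this
  have hn2 : hn G D u ⊆ S2 G D u := by
    unfold S2
    exact subset_union_left
  rcases hA S' hS4 u w huS hwS with h | ⟨x1, h1, a1, h⟩
  · exact absurd h huw
  have n1 : x1 ∉ hub G D := fun hh => h1 (hS1 (hS2 (hn2 ((mem_hn G D u x1).2 ⟨a1, hh⟩))))
  have b1 : x1 ∈ ball G D u 1 := ball_step G D u 0 b0 a1 n1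
  rcases h with h | ⟨x2, h2, a2, h⟩
  · exact absurd (m45 (m34 (m23 (m12 (h ▸ b1))))) hwb
  have n2 : x2 ∉ hub G D := by
    intro hh
    apply h2 (hS1 (hS2 _))
    unfold S2
    refine mem_union_right _ (mem_biUnion.2 ⟨x1, ?_, (mem_hn G D x1 x2).2 ⟨a2, hh⟩⟩)
    rw [mem_filter, G.mem_neighborFinset]
    exact ⟨a1, n1⟩
  have b2 : x2 ∈ ball G D u 2 := ball_step G D u 1 b1 a2 n2
  rcases h with h | ⟨x3, h3, a3, h⟩
  · exact absurd (m45 (m34 (m23 (h ▸ b2)))) hwb
  by_cases n3 : x3 ∈ hub G D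
  · refine ⟨x3, mem_biUnion.2 ⟨x2, b2, (mem_hn G D x2 x3).2 ⟨a3, n3⟩⟩, fun hh => h3 (hS1 hh), ?_⟩
    rcases h with h | ⟨x4, h4, a4, h⟩
    · exact absurd (h ▸ n3) hw
    rcases h with h | ⟨x5, h5, a5, h⟩
    · subst h
      exact absurd (hS1 (hnw ((mem_hn G D x4 x3).2 ⟨a4.symm, n3⟩))) h3
    · have h' : x5 = w := h
      subst h'
      have n4 : x4 ∉ hub G D := fun hh => h4 (hS1 (hnw ((mem_hn G D x5 x4).2 ⟨a5.symm, hh⟩)))
      unfold S2
      refine mem_union_right _ (mem_biUnion.2 ⟨x4, ?_, (mem_hn G D x4 x3).2 ⟨a4.symm, n3⟩⟩)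
      rw [mem_filter, G.mem_neighborFinset]
      exact ⟨a5.symm, n4⟩
  · exfalso
    have b3 : x3 ∈ ball G D u 3 := ball_step G D u 2 b2 a3 n3
    rcases h with h | ⟨x4, h4, a4, h⟩
    · exact hwb (m45 (m34 (h ▸ b3)))
    rcases h with h | ⟨x5, h5, a5, h⟩
    · subst h
      exact hwb (m45 (ball_step G D u 3 b3 a4 hw))
    · have h' : x5 = w := h
      subst h'
      by_cases n4 : x4 ∈ hub G D
      · exact h4 (hS1 (hnw ((mem_hn G D x5 x4).2 ⟨a5.symm, n4⟩)))
      · exact hwb (ball_step G D u 4 (ball_step G D u 3 b3 a4 n4) a5 hw)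

end Pool.Agent.K1H16.DF
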